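import Pool.Agent.Helper53.UV.Par
import Pool.Agent.Helper98.UR.ETB

/-!
# Project UR2, packet ETB
-/

set_option autoImplicit false

namespace Pool.Agent.Helper46.UV

open Pool.Agent.Helper65.LinSpace Pool.Agent.Helper78.Mpc Filter
open Pool.Agent.Helper65.BR (Mach BM prm bT lT)
open Pool.Agent.Helper53.CTG (ev Et Nt Hb Eb Fb Pb Gb Rb)
open Pool.Agent.Helper53.UR (betU KU)
open Pool.Agent.Helper53.UV
open Pool.Agent.Helper98.UR (Eb_le Fb_le Hb_eq lT_le arith)

theorem eV_le (n T : ℕ) : eV n T ≤ Nat.log 2 n := by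
  unfold eV betU
  exact Nat.log_mono_right ((Nat.div_le_self _ _).trans (Nat.div_le_self _ _))

theorem part1 (n T : ℕ) : Et (NV n T) (eV n T + 3) (bV n T) (cV n T) ≤ 1000 * (n + 1) := by
  have hLd : lT n T = bT n T 2 + (Nat.log 2 n + 1) + 4 := rfl
  have hL := lT_le n T
  have he := eV_le n T
  have hLpos : 0 < lT n T := by omega
  have hK1 : 1 ≤ KU n T := Nat.le_add_left 1 _
  have hHb : Hb (NV n T) (eV n T + 3) = KU n T := Hb_eq hK1 (by omega)
  have hKL : lT n T * KU n T ≤ n + lT n T := by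
    unfold KU
    have := Nat.mul_div_le n (lT n T)
    rw [mul_add, mul_one]
    omega
  have hq : eV n T + 3 + 2 ≤ lT n T := by omega
  unfold Et
  rw [show Nt (NV n T) (eV n T + 3) = KU n T * (eV n T + 3) + KU n T by
    unfold Nt
    rw [hHb]
    rfl, hHb]
  by_cases hok : okV n T = 0
  · have hb : bV n T = 1 := by simp [bV, ifz, hok]
    have hc : cV n T = 0 := by simp [cV, ifz, hok]
    rw [hb, hc]
    refine arith hq hKL hL ?_ ?_ (by omega) (by omega)
    · have h1 : Eb 1 ≤ 42 := by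
        have := Eb_le (b := 1) le_rfl
        simpa using this
      calc (3 * (eV n T + 3) + 4) * Eb 1 ≤ (3 * lT n T) * 42 := Nat.mul_le_mul (by omega) h1
        _ ≤ 36 * n + 126 * lT n T := by omega
    · have := Fb_le (N := NV n T) (q := eV n T + 3) (b := 1) le_rfl
      rwa [hHb] at this
  · have hb : bV n T = betU n T := by simp [bV, ifz, hok]
    have hc : cV n T = bT n T 2 + 2 := by simp [cV, ifz, hok]
    have hb1 : 1 ≤ betU n T := by
      by_contra h
      refine hok ?_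
      unfold okV le01
      rw [if_neg (by omega), zero_mul]
    have hbn : betU n T * (lT n T * lT n T) ≤ n := by
      unfold betU
      exact Nat.div_mul_le_self _ _
    have hbn' : betU n T ≤ n := by
      unfold betU
      exact Nat.div_le_self _ _
    rw [hb, hc]
    refine arith hq hKL hL ?_ ?_ (by omega) (by omega)
    · have h1 := Eb_le hb1
      have h2 : Nat.log 2 (betU n T) ≤ Nat.log 2 n := Nat.log_mono_right hbn'
      have h3 : Eb (betU n T) ≤ 6 * betU n T * (2 * lT n T) :=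
        h1.trans (Nat.mul_le_mul_left _ (by omega))
      calc (3 * (eV n T + 3) + 4) * Eb (betU n T)
          ≤ (3 * lT n T) * (6 * betU n T * (2 * lT n T)) := Nat.mul_le_mul (by omega) h3
        _ = 36 * (betU n T * (lT n T * lT n T)) := by ring
        _ ≤ 36 * n := Nat.mul_le_mul_left _ hbn
        _ ≤ 36 * n + 126 * lT n T := by omega
    · have := Fb_le (N := NV n T) (q := eV n T + 3) (b := betU n T) hb1
      rwa [hHb] at this

theorem gETB : GoalETB := by
  refine ⟨part1, fun z => ?_⟩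
  unfold Qn.W capPow
  refine min_eq_left ?_
  have h1 : Et (Qn.N z) (Qn.q z) (Qn.b z) (Qn.c z) ≤ 1000 * (Qn.n z + 1) :=
    part1 (Qn.n z) (Qn.T z)
  have h2 : 2 ^ (Qn.n z + 1) ≤ (z.2.1 + 2) ^ 2 := by
    change 2 ^ (Nat.log 2 z.2.1 + 1) ≤ (z.2.1 + 2) ^ 2
    rcases Nat.eq_zero_or_pos z.2.1 with h | h
    · rw [h]
      simp
    · have h3 : 2 ^ Nat.log 2 z.2.1 ≤ z.2.1 := Nat.pow_log_le_self _ (by omega)
      rw [pow_succ]
      nlinarith
  calc 2 ^ Et (Qn.N z) (Qn.q z) (Qn.b z) (Qn.c z) ≤ 2 ^ (1000 * (Qn.n z + 1)) :=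
        Nat.pow_le_pow_right (by norm_num) h1
    _ = (2 ^ (Qn.n z + 1)) ^ 1000 := by rw [← pow_mul, mul_comm]
    _ ≤ ((z.2.1 + 2) ^ 2) ^ 1000 := Nat.pow_le_pow_left h2 _
    _ = (z.2.1 + 2) ^ 2000 := by rw [← pow_mul]
    _ ≤ (z.2.1 + 2) ^ 2000 + 1 := Nat.le_succ _

end Pool.Agent.Helper46.UV
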